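import Pool.Agent.Helper7.Sec.Defs
import Pool.Agent.Helper7.Sec.A1
import Pool.Agent.Helper7.Sec.A2b
import Pool.Agent.Helper7.Sec.C1
import Pool.Agent.Helper7.Sec.E4
import Pool.Agent.Helper7.Sec.F1
import Pool.Agent.Helper7.Sec.G2
import Pool.Agent.Helper7.Sec.H1
import Pool.Agent.Helper7.Sec.I1
import Pool.Agent.Helper7.Sec.Z1

set_option autoImplicit false
open MeasureTheory Set
open Pool.Agent.Helper7.Sec

namespace Pool.Agent.Results.MP_95cc6d_gt.PlanarSections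

theorem norm_comb {n : ℕ} (v w : EuclideanSpace ℝ (Fin n)) (hv : ‖v‖ = 1) (hw : ‖w‖ = 1)
    (hvw : inner ℝ v w = (0:ℝ)) (x y : ℝ) : ‖x • v + y • w‖ = ‖(⟨x, y⟩ : ℂ)‖ := by
  have h1 : ‖x • v + y • w‖ ^ 2 = x ^ 2 + y ^ 2 := by
    rw [@norm_add_sq_real, norm_smul, norm_smul, hv, hw, inner_smul_left, inner_smul_right, hvw]
    simp
  have h2 : ‖(⟨x, y⟩ : ℂ)‖ ^ 2 = x ^ 2 + y ^ 2 := by
    rw [← Complex.normSq_eq_norm_sq, Complex.normSq_mk]; ring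
  have := h1.trans h2.symm
  exact (sq_eq_sq₀ (norm_nonneg _) (norm_nonneg _)).1 this

theorem smul_comb {n : ℕ} (v w : EuclideanSpace ℝ (Fin n)) (t : ℝ) (z : ℂ) :
    (t • z).re • v + (t • z).im • w = t • (z.re • v + z.im • w) := by
  simp only [Complex.smul_re, Complex.smul_im, smul_eq_mul, smul_add, smul_smul]

theorem sec_eq {n : ℕ} (ρ : EuclideanSpace ℝ (Fin n) → ℝ) (v w : EuclideanSpace ℝ (Fin n)) (hv : ‖v‖ = 1) (hw : ‖w‖ = 1)
    (hvw : inner ℝ v w = (0:ℝ)) :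
    {z : ℂ | z.re • v + z.im • w ∈ {x | ‖x‖ ≤ ρ ((‖x‖⁻¹ : ℝ) • x)}} = PB (fun z => ρ (z.re • v + z.im • w)) := by
  ext z
  have hn : ‖z.re • v + z.im • w‖ = ‖z‖ := norm_comb v w hv hw hvw z.re z.im
  simp only [Set.mem_setOf_eq, PB, hn, smul_comb]

/-- `ℝⁿ` with its Euclidean norm. -/
abbrev E (n : ℕ) : Type := EuclideanSpace ℝ (Fin n)

/-- The linear subspaces of `ℝⁿ`. -/
abbrev Sub (n : ℕ) : Type := Submodule ℝ (E n)

/-- The affine bijections from the linear subspace `S` onto the linear subspace `T`. -/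
abbrev AffBij {n : ℕ} (S T : Sub n) : Type := S ≃ᵃ[ℝ] T

/-- The map underlying an affine bijection. -/
noncomputable def AffBij.map {n : ℕ} {S T : Sub n} (f : AffBij S T) : S → T := fun x => f x

/-- The section of `K` by the linear subspace `S`, as a subset of `S`. -/
def sec {n : ℕ} (K : Set (E n)) (S : Sub n) : Set S := {x : S | (x : E n) ∈ K}

/-- A star body with the origin in its interior: `K = {x : ‖x‖ ≤ ρ (x/‖x‖)}` with `ρ` continuous and positive. -/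
def IsStarBody {n : ℕ} (K : Set (E n)) : Prop :=
  ∃ ρ : E n → ℝ, Continuous ρ ∧ (∀ x, 0 < ρ x) ∧ K = {x | ‖x‖ ≤ ρ (‖x‖⁻¹ • x)}

/-- The sections of `K` by the linear subspaces `S` and `T` are affinely equivalent. -/
def SectionsEquivalent {n : ℕ} (K : Set (E n)) (S T : Sub n) : Prop :=
  ∃ f : AffBij S T, AffBij.map f '' sec K S = sec K T

/-- The affine bijections of `ℝⁿ` onto itself. -/
abbrev AffAut (n : ℕ) : Type := E n ≃ᵃ[ℝ] E n

/-- The image of a set under an affine bijection of `ℝⁿ`. -/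
def AffAut.image {n : ℕ} (A : AffAut n) (B : Set (E n)) : Set (E n) := A '' B

/-- `K` is an affine image of the closed unit ball. -/
def IsEllipsoid {n : ℕ} (K : Set (E n)) : Prop :=
  ∃ A : AffAut n, K = AffAut.image A (Metric.closedBall 0 1)

/-- Let `n ≥ 3` and let `K` be a star body in `ℝⁿ` with the origin in its interior (not necessarily convex or
symmetric). If any two of its sections by 2-dimensional linear subspaces are affinely equivalent (the affine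
bijections need not fix the origin), then `K` is an ellipsoid. -/
theorem result (n : ℕ) (hn : 3 ≤ n) (K : Set (E n)) (hK : IsStarBody K)
    (h : ∀ S T : Sub n, Module.finrank ℝ S = 2 → Module.finrank ℝ T = 2 → SectionsEquivalent K S T) :
    IsEllipsoid K := by
  obtain ⟨ρ, hρ, hpos, rfl⟩ := hK
  have h' : ∀ S T : Submodule ℝ (EuclideanSpace ℝ (Fin n)),
      Module.finrank ℝ S = 2 → Module.finrank ℝ T = 2 →
      ∃ f : S ≃ᵃ[ℝ] T,
        f '' {x : S | (x : EuclideanSpace ℝ (Fin n)) ∈ {x | ‖x‖ ≤ ρ ((‖x‖⁻¹ : ℝ) • x)}} =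
          {y : T | (y : EuclideanSpace ℝ (Fin n)) ∈ {x | ‖x‖ ≤ ρ ((‖x‖⁻¹ : ℝ) • x)}} :=
    fun S T hS hT => h S T hS hT
  have hT : ∀ v w v' w' : EuclideanSpace ℝ (Fin n), ‖v‖ = 1 → ‖w‖ = 1 → inner ℝ v w = (0:ℝ) →
      ‖v'‖ = 1 → ‖w'‖ = 1 → inner ℝ v' w' = (0:ℝ) →
      ∃ T : ℂ ≃ᵃ[ℝ] ℂ, T '' PB (fun z => ρ (z.re • v + z.im • w)) = PB (fun z => ρ (z.re • v' + z.im • w')) := by
    intro v w v' w' hv hw hvw hv' hw' hvw'
    obtain ⟨T, hT⟩ := I1 n _ h' v w v' w' hv hw hvw hv' hw' hvw'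
    refine ⟨T, ?_⟩
    rw [sec_eq ρ v w hv hw hvw, sec_eq ρ v' w' hv' hw' hvw'] at hT
    exact hT
  have key : ∀ v w : EuclideanSpace ℝ (Fin n), ‖v‖ = 1 → ‖w‖ = 1 → inner ℝ v w = (0:ℝ) →
      ∃ a1 a2 a3 d1 d2 : ℝ, ∀ x y : ℝ, (x ≠ 0 ∨ y ≠ 0) →
        ‖x • v + y • w‖ ^ 2 / (ρ ((‖x • v + y • w‖⁻¹ : ℝ) • (x • v + y • w)) * ρ (-((‖x • v + y • w‖⁻¹ : ℝ) • (x • v + y • w))))
          = a1 * x ^ 2 + a2 * (x * y) + a3 * y ^ 2 ∧
        ‖x • v + y • w‖ * (1 / ρ ((‖x • v + y • w‖⁻¹ : ℝ) • (x • v + y • w)) - 1 / ρ (-((‖x • v + y • w‖⁻¹ : ℝ) • (x • v + y • w))))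
          = d1 * x + d2 * y := by
    intro v w hv hw hvw
    set r : ℂ → ℝ := fun z => ρ (z.re • v + z.im • w) with hr
    have hrc : Continuous r := by
      have := Complex.continuous_re
      have := Complex.continuous_im
      fun_prop
    have hrp : ∀ z, 0 < r z := fun z => hpos _
    have hM : ∀ m j : ℕ, 1 ≤ m → M (PB r) m j = 0 := fun m j hm =>
      Z1 n hn ρ hρ hpos hT v w hv hw hvw m j hm
    obtain ⟨b, hb, hE⟩ := E4 r hrc hrp hM
    obtain ⟨hc1, hc2, -, -⟩ := C1 r hrc hrp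
    have hlt : ‖S2 (PB r)‖ < S0 (PB r) := A1 _ hc1 ⟨0, hc2⟩
    have hk : ‖kap (PB r)‖ < 1 := (A2b _ _ hlt).1
    obtain ⟨a1, a2, a3, d1, d2, hF⟩ := F1 r hrc hrp (cen (PB r)) (kap (PB r)) hk b hb hE
    refine ⟨a1, a2, a3, d1, d2, fun x y hxy => ?_⟩
    have hz : (⟨x, y⟩ : ℂ) ≠ 0 := by
      intro h0
      have h1 := congrArg Complex.re h0
      have h2 := congrArg Complex.im h0
      simp at h1 h2
      rcases hxy with h3 | h3
      · exact h3 h1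
      · exact h3 h2
    have hF' := hF ⟨x, y⟩ hz
    have hn' : ‖x • v + y • w‖ = ‖(⟨x, y⟩ : ℂ)‖ := norm_comb v w hv hw hvw x y
    have e1 : r ((‖(⟨x, y⟩ : ℂ)‖⁻¹ : ℝ) • (⟨x, y⟩ : ℂ)) = ρ ((‖x • v + y • w‖⁻¹ : ℝ) • (x • v + y • w)) := by
      rw [hr, hn']
      show ρ _ = ρ _
      rw [smul_comb]
    have e2 : r (-((‖(⟨x, y⟩ : ℂ)‖⁻¹ : ℝ) • (⟨x, y⟩ : ℂ))) = ρ (-((‖x • v + y • w‖⁻¹ : ℝ) • (x • v + y • w))) := by
      rw [hr, hn']
      show ρ _ = ρ _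
      rw [← neg_smul, smul_comb, neg_smul]
    rw [e1, e2] at hF'
    rw [← hn'] at hF'
    exact hF'
  obtain ⟨B, L, hs, hp, hB⟩ := G2 n ρ hpos key (by omega)
  obtain ⟨A, hA⟩ := H1 n B L hs hp
  refine ⟨A, ?_⟩
  show {x | ‖x‖ ≤ ρ ((‖x‖⁻¹ : ℝ) • x)} = A '' Metric.closedBall 0 1
  rw [← hA]
  ext x
  exact hB x

end Pool.Agent.Results.MP_95cc6d_gt.PlanarSections
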